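import Pool.Agent.H82.RD.Targets
import Pool.Agent.H99.RD.KPI

/-!
# The dimension drops strictly
-/

set_option autoImplicit false

open MvPolynomial

namespace Pool.Agent.H95.RD

open Pool.Agent.H82.RD

theorem trdeg_PR_lt {k : Type} [Field k] {u : ℕ} (I : Ideal (PR k u)) :
    Algebra.trdeg k (PR k u ⧸ I) < Cardinal.aleph0 :=
  trdeg_lt_aleph0_of_finiteType

theorem pf_ZSM : T_ZSM := by
  intro k _ u q p hq hp h
  have h1 := Pool.Agent.H99.RD.drop q p h
  have hp1 : Algebra.trdeg k (PR k u ⧸ p) < Cardinal.aleph0 := trdeg_PR_lt p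
  have hq1 : Algebra.trdeg k (PR k u ⧸ q) < Cardinal.aleph0 := trdeg_PR_lt q
  have h2 := Cardinal.toNat_le_toNat h1 hq1
  rw [Cardinal.toNat_add hp1 Cardinal.one_lt_aleph0, Cardinal.one_toNat] at h2
  exact h2

theorem pf_ZD0 : T_ZD0 := by
  intro k _ u
  have h1 : Algebra.trdeg k (PR k u ⧸ (⊥ : Ideal (PR k u))) = Algebra.trdeg k (PR k u) :=
    (AlgEquiv.quotientBot k (PR k u)).trdeg_eq
  unfold dm
  rw [h1, MvPolynomial.trdeg_of_isDomain]
  simp

end Pool.Agent.H95.RD
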